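import Pool.Agent.NW3.Quarter
import Pool.Agent.NW3.Step3
import Pool.Agent.NW3.LVortexProof
import Pool.Agent.NW3.AbsWrap
import Pool.Agent.H30.Q.Main

/-!
# Sparse partial latin squares of large order are completable: density up to `1/4`
-/

namespace Pool.Agent.Results.MP_cf43ab_co.AsymptoticCompletion

/-- For every `ε > 0` there is `n₀` such that for all `n ≥ n₀` every partial latin square `P` of
order `n` (no symbol repeated in a row or column) with at most `(1/4 - ε) n` filled cells in every
row and in every column, in which every symbol is used at most `(1/4 - ε) n` times, extends to a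
latin square of order `n`. -/
theorem result (ε : ℝ) (hε : 0 < ε) : ∃ n₀ : ℕ, ∀ n : ℕ, n₀ ≤ n →
    ∀ P : Fin n → Fin n → Option (Fin n),
      (∀ (r c₁ c₂ s : Fin n), P r c₁ = some s → P r c₂ = some s → c₁ = c₂) →
      (∀ (c r₁ r₂ s : Fin n), P r₁ c = some s → P r₂ c = some s → r₁ = r₂) →
      (∀ r : Fin n,
        ((Finset.univ.filter (fun c : Fin n => P r c ≠ none)).card : ℝ) ≤ (1 / 4 - ε) * n) →
      (∀ c : Fin n,
        ((Finset.univ.filter (fun r : Fin n => P r c ≠ none)).card : ℝ) ≤ (1 / 4 - ε) * n) →
      (∀ s : Fin n,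
        ((Finset.univ.filter (fun p : Fin n × Fin n => P p.1 p.2 = some s)).card : ℝ)
          ≤ (1 / 4 - ε) * n) →
      ∃ L : Fin n → Fin n → Fin n,
        (∀ r : Fin n, Function.Injective (L r)) ∧
        (∀ c : Fin n, Function.Injective (fun r : Fin n => L r c)) ∧
        ∀ (r c s : Fin n), P r c = some s → L r c = s :=
  NW3.compl_of_FT NW3.lVortexStatement NW3.step3 NW3.absorber (1 / 4) le_rfl H30Q.ft_quarter ε hε

end Pool.Agent.Results.MP_cf43ab_co.AsymptoticCompletion
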