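import Pool.Agent.H95.FQ.Main
import Pool.Agent.H64.Tri.Main

/-!
# Partial Latin squares with all usages at most `n / 4`: fractional completion, and completion of
all divisible inflations
-/

namespace Pool.Agent.Results.MP_cf43ab_co.FractionalQuarter

/-- Let `P` be a partial Latin square of order `n` (no symbol repeated in a row or a column) in
which every row and every column has at most `k` filled cells and every symbol is used at most `k`
times, where `4 k ≤ n` (in particular any `k`-protoplex with `k ≤ n / 4`).

(1) `P` has a fractional completion `f`: a nonnegative rational function of (row, column, symbol)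
all of whose line sums are `1`, with `f = 1` on the filled cells.

(2) There is `q ≥ 1` such that for every positive multiple `N` of `q`, every partial Latin square
`P'` of order `n N` which is an `N`-inflation of `P` (cell `(a, b)` of `P'` is filled exactly when
cell `(a / N, b / N)` of `P` is, and then the symbol `s'` of `P'` has `s' / N` equal to the symbol
of `P`) extends to a Latin square of order `n N`. -/
theorem result (n k : ℕ) (hk : 4 * k ≤ n) (P : Fin n → Fin n → Option (Fin n))
    (hr : ∀ (r c₁ c₂ s : Fin n), P r c₁ = some s → P r c₂ = some s → c₁ = c₂)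
    (hc : ∀ (c r₁ r₂ s : Fin n), P r₁ c = some s → P r₂ c = some s → r₁ = r₂)
    (hsym : ∀ s : Fin n,
      (Finset.univ.filter (fun p : Fin n × Fin n => P p.1 p.2 = some s)).card ≤ k)
    (hrow : ∀ r : Fin n, (Finset.univ.filter (fun c : Fin n => P r c ≠ none)).card ≤ k)
    (hcol : ∀ c : Fin n, (Finset.univ.filter (fun r : Fin n => P r c ≠ none)).card ≤ k) :
    (∃ f : Fin n → Fin n → Fin n → ℚ, (∀ r c s, 0 ≤ f r c s) ∧
      (∀ r c, ∑ s, f r c s = 1) ∧ (∀ c s, ∑ r, f r c s = 1) ∧ (∀ r s, ∑ c, f r c s = 1) ∧
      ∀ r c s, P r c = some s → f r c s = 1) ∧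
    ∃ q : ℕ, 0 < q ∧ ∀ N : ℕ, 0 < N → q ∣ N →
      ∀ P' : Fin (n * N) → Fin (n * N) → Option (Fin (n * N)),
      (∀ (r c₁ c₂ s : Fin (n * N)), P' r c₁ = some s → P' r c₂ = some s → c₁ = c₂) →
      (∀ (c r₁ r₂ s : Fin (n * N)), P' r₁ c = some s → P' r₂ c = some s → r₁ = r₂) →
      (∀ a b : Fin (n * N), (P' a b).map Fin.divNat = P a.divNat b.divNat) →
      ∃ L : Fin (n * N) → Fin (n * N) → Fin (n * N),
        (∀ r, Function.Injective (L r)) ∧ (∀ c, Function.Injective (fun r => L r c)) ∧
        ∀ r c s, P' r c = some s → L r c = s :=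
  H95FQ.quarter (fun _ _ _ S => H64Tri.frac_decomp S (by linarith)) n k P hr hc hsym hrow hcol hk

end Pool.Agent.Results.MP_cf43ab_co.FractionalQuarter
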